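import Mathlib
import Pool.Agent.H22.VM.Targets

/-!
# Vinogradov mean values: raising lemma with cost (RA)
-/

set_option autoImplicit false

open Finset Polynomial

namespace Pool.Agent.H92.VM

open Pool.Agent.H22.VM

/-- monotonicity of `BL` in the deficit -/
lemma BL_mono {ι Ω : Type} [Fintype Ω] {p : ℕ} {s : ℝ} {n : ℕ} {w : Ω → ℝ} {R : Finset ι}
    {r : ι → ℤ} {F : ι → Ω → ℂ} {M L t : ℝ} {a b : ℕ} {x y : ℝ} (hM : 0 ≤ M) (hxy : y ≤ x)
    (h : BL p s n w R r F M L t a b x) : BL p s n w R r F M L t a b y := by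
  intro ξ η hξη
  refine (h ξ η hξη).trans ?_
  have h1 : Real.exp (L - x) ≤ Real.exp (L - y) := Real.exp_le_exp.mpr (by linarith)
  gcongr

/-- **RA** -/
theorem ra (h_r1 : T_R1) : T_RA := by
  intro p k σ c' C' hp hkp hk hc' hC' hflat
  have hk0 : (0 : ℝ) < k := by exact_mod_cast (by omega : 0 < k)
  obtain ⟨S, hS⟩ := pow_unbounded_of_one_lt ((k : ℝ) ^ 3) (by
    have : (0 : ℝ) < 1 / (2 * k) := by positivity
    linarith : (1 : ℝ) < 1 + 1 / (2 * k))
  refine ⟨S * C', by positivity, ?_⟩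
  intro s M L x n l a a' b hM hl hlk hσ0 hσs hla haa' ha'n hla'b hbn hb hak ι Ω _ w R r F hw hinv hBL
  have key : ∀ (j a : ℕ), l ≤ a → a ≤ a' → (a' : ℝ) ≤ (1 + 1 / (2 * k) : ℝ) ^ j * a →
      BL p s n w R r F M L (σ l) a b (x - j * C' * (a' : ℝ) ^ c') := by
    intro j
    induction j with
    | zero =>
      intro a _ haa' h
      have h1 : a' ≤ a := by
        have : (a' : ℝ) ≤ a := by simpa using h
        exact_mod_cast this
      have h2 : a = a' := le_antisymm haa' h1
      subst h2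
      simpa using hBL
    | succ j ih =>
      intro a hla haa' h
      -- the step
      obtain ⟨n', hn', hn'1, hn'2⟩ : ∃ n' : ℕ, l * n' ≤ a ∧ a + n' ≤ a' ∧
          (a' : ℝ) ≤ (1 + 1 / (2 * k) : ℝ) ^ j * ((a + n' : ℕ) : ℝ) := by
        by_cases hc : a' - a ≤ a / l
        · refine ⟨a' - a, ?_, by omega, ?_⟩
          · calc l * (a' - a) ≤ l * (a / l) := Nat.mul_le_mul_left _ hc
              _ ≤ a := Nat.mul_div_le a l
          · rw [show a + (a' - a) = a' by omega]
            have : (1 : ℝ) ≤ (1 + 1 / (2 * k) : ℝ) ^ j := one_le_pow₀ (by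
              have : (0 : ℝ) < 1 / (2 * k) := by positivity
              linarith)
            nlinarith [Nat.cast_nonneg (α := ℝ) a']
        · push Not at hc
          refine ⟨a / l, Nat.mul_div_le a l, by omega, ?_⟩
          have hlpos : 0 < l := by omega
          have h1 : 1 ≤ a / l := (Nat.one_le_div_iff hlpos).mpr hla
          have h2 : a < l * (a / l + 1) := Nat.lt_mul_div_succ a hlpos
          have h3 : a ≤ 2 * l * (a / l) := by nlinarith
          have h4 : a ≤ 2 * k * (a / l) := h3.trans (by gcongr)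
          have h5 : (a : ℝ) ≤ 2 * k * ((a / l : ℕ) : ℝ) := by exact_mod_cast h4
          have h6 : (1 + 1 / (2 * k) : ℝ) * a ≤ ((a + a / l : ℕ) : ℝ) := by
            push_cast
            have : 1 / (2 * k : ℝ) * a ≤ ((a / l : ℕ) : ℝ) := by
              rw [one_div, inv_mul_le_iff₀ (by positivity)]
              exact h5
            linarith
          calc (a' : ℝ) ≤ (1 + 1 / (2 * k) : ℝ) ^ (j + 1) * a := h
            _ = (1 + 1 / (2 * k) : ℝ) ^ j * ((1 + 1 / (2 * k) : ℝ) * a) := by ring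
            _ ≤ (1 + 1 / (2 * k) : ℝ) ^ j * ((a + a / l : ℕ) : ℝ) := by gcongr
      have hind := ih (a + n') (by omega) hn'1 hn'2
      intro ξ η hξη
      have h1 := h_r1 p k l (k * n) a b n' ξ η (s - σ l) (σ l) (Real.exp (C' * (n' : ℝ) ^ c'))
        (Real.exp (L - (x - j * C' * (a' : ℝ) ^ c')) *
          (((p : ℝ) ^ (n - (a + n'))) ^ (σ l) * ((p : ℝ) ^ (n - b)) ^ (s - σ l)) * M)
        hp hkp hl hlk (by omega) (Nat.mul_le_mul_left _ hbn) (by nlinarith)
        ((Nat.mul_le_mul_left _ hn'1).trans hla'b) hξη (hflat l hl hlk n') ι Ω w R r F hw hinv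
        (by
          intro ζ hζ
          apply hind ζ η
          intro hdiv
          apply hξη
          have h2 : (p : ℤ) ∣ ζ - ξ := (dvd_pow_self (p : ℤ) (by omega : a ≠ 0)).trans hζ
          have h3 := dvd_sub hdiv h2
          have h4 : ζ - η - (ζ - ξ) = ξ - η := by ring
          rwa [h4] at h3)
      refine h1.trans ?_
      have hp0 : (0 : ℝ) < p := by exact_mod_cast hp.pos
      have e1 : ((p : ℝ) ^ n') ^ (σ l) * ((p : ℝ) ^ (n - (a + n'))) ^ (σ l) = ((p : ℝ) ^ (n - a)) ^ (σ l) := by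
        rw [← Real.mul_rpow (by positivity) (by positivity), ← pow_add]
        congr 2
        omega
      have e2 : Real.exp (C' * (n' : ℝ) ^ c') * Real.exp (L - (x - j * C' * (a' : ℝ) ^ c')) ≤
          Real.exp (L - (x - ((j + 1 : ℕ) : ℝ) * C' * (a' : ℝ) ^ c')) := by
        rw [← Real.exp_add]
        apply Real.exp_le_exp.mpr
        have h5 : (n' : ℝ) ^ c' ≤ (a' : ℝ) ^ c' := by
          apply Real.rpow_le_rpow (Nat.cast_nonneg _) _ hc'
          exact_mod_cast (by omega : n' ≤ a')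
        have h6 : C' * (n' : ℝ) ^ c' ≤ C' * (a' : ℝ) ^ c' := mul_le_mul_of_nonneg_left h5 hC'
        push_cast
        nlinarith
      calc Real.exp (C' * (n' : ℝ) ^ c') * ((p : ℝ) ^ n') ^ (σ l) *
            (Real.exp (L - (x - j * C' * (a' : ℝ) ^ c')) *
              (((p : ℝ) ^ (n - (a + n'))) ^ (σ l) * ((p : ℝ) ^ (n - b)) ^ (s - σ l)) * M)
          = (Real.exp (C' * (n' : ℝ) ^ c') * Real.exp (L - (x - j * C' * (a' : ℝ) ^ c'))) *
              ((((p : ℝ) ^ n') ^ (σ l) * ((p : ℝ) ^ (n - (a + n'))) ^ (σ l)) *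
                ((p : ℝ) ^ (n - b)) ^ (s - σ l)) * M := by ring
        _ ≤ Real.exp (L - (x - ((j + 1 : ℕ) : ℝ) * C' * (a' : ℝ) ^ c')) *
              (((p : ℝ) ^ (n - a)) ^ (σ l) * ((p : ℝ) ^ (n - b)) ^ (s - σ l)) * M := by
            rw [e1]
            gcongr
  apply key S a hla haa'
  have h1 : (a' : ℝ) ≤ (k : ℝ) ^ 3 * a := by exact_mod_cast hak
  refine h1.trans ?_
  gcongr

end Pool.Agent.H92.VM
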