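import Mathlib
import Pool.Agent.H22.VM.Targets

/-!
# Vinogradov mean values: the start of the recursion (ST)
-/

set_option autoImplicit false

open Finset Polynomial

namespace Pool.Agent.H92.VM

open Pool.Agent.H22.VM

/-- **ST** -/
theorem st (h_bn : T_BN) (h_cl : T_CL) : T_ST := by
  intro p n β s M L x hp hs hβ hβn hM ι Ω _ w R r F hw hup hlow hBL
  have hp1 : 1 < p := by omega
  have hp0 : (0 : ℝ) < p := by exact_mod_cast (by omega : 0 < p)
  have hp1r : (1 : ℝ) ≤ p := by exact_mod_cast (by omega : 1 ≤ p)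
  obtain ⟨-, -, -, hcl0, hclsum⟩ := h_cl p hp1 ι R r
  -- block sums
  have hsplit : ∀ ω, bs F R ω = ∑ c : Fin p, bs F (cls p R r 1 ((c : ℕ) : ℤ)) ω := by
    intro ω
    have h1 := hclsum ℂ (fun i => F i ω) 0 1 0 (by omega)
    rw [hcl0] at h1
    simp only [tsub_zero, pow_one, pow_zero, zero_add, one_mul] at h1
    unfold bs
    rw [h1, Finset.sum_range]
  have hsplit2 : ∀ (c : ℤ) ω, bs F (cls p R r 1 c) ω =
      ∑ j ∈ range (p ^ (β - 1)), bs F (cls p R r β (c + (p : ℤ) * (j : ℤ))) ω := by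
    intro c ω
    have h1 := hclsum ℂ (fun i => F i ω) 1 β c hβ
    simp only [pow_one] at h1
    unfold bs
    exact h1
  set G : Fin p → Ω → ℝ := fun c ω => ‖bs F (cls p R r 1 ((c : ℕ) : ℤ)) ω‖ with hG
  have hG0 : ∀ c ω, 0 ≤ G c ω := fun c ω => norm_nonneg _
  -- broad-narrow
  have hbn : mo w F s R ≤ 2 ^ (2 * s) * ∑ c : Fin p, mo w F s (cls p R r 1 ((c : ℕ) : ℤ)) +
      (p : ℝ) ^ (2 * s + 2) * ∑ c : Fin p, ∑ c' ∈ univ.filter (fun c' => c' ≠ c),
        ∑ ω, w ω * (G c' ω ^ (2 : ℝ) * G c ω ^ (2 * s - 2)) := by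
    unfold mo
    calc ∑ ω, w ω * ‖bs F R ω‖ ^ (2 * s)
        ≤ ∑ ω, w ω * (2 ^ (2 * s) * ∑ c, G c ω ^ (2 * s) + (p : ℝ) ^ (2 * s + 2) *
            ∑ c, ∑ c' ∈ univ.filter (fun c' => c' ≠ c), G c' ω ^ (2 : ℝ) * G c ω ^ (2 * s - 2)) := by
          apply Finset.sum_le_sum
          intro ω _
          apply mul_le_mul_of_nonneg_left _ (hw ω)
          rw [hsplit ω]
          exact h_bn p s _ hp1 (by linarith)
      _ = _ := by
          simp_rw [mul_add, Finset.sum_add_distrib]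
          congr 1
          · rw [Finset.mul_sum]
            rw [Finset.sum_congr rfl (fun ω _ => ?_)]
            rotate_left
            · exact fun ω => ∑ c, 2 ^ (2 * s) * (w ω * G c ω ^ (2 * s))
            · rw [Finset.mul_sum, Finset.mul_sum]
              exact Finset.sum_congr rfl fun c _ => by ring
            · rw [Finset.sum_comm]
              exact Finset.sum_congr rfl fun c _ => by rw [Finset.mul_sum]
          · rw [Finset.mul_sum]
            rw [Finset.sum_congr rfl (fun ω _ => ?_)]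
            rotate_left
            · exact fun ω => ∑ c, ∑ c' ∈ univ.filter (fun c' => c' ≠ c),
                (p : ℝ) ^ (2 * s + 2) * (w ω * (G c' ω ^ (2 : ℝ) * G c ω ^ (2 * s - 2)))
            · rw [Finset.mul_sum, Finset.mul_sum]
              refine Finset.sum_congr rfl fun c _ => ?_
              rw [Finset.mul_sum, Finset.mul_sum]
              exact Finset.sum_congr rfl fun c' _ => by ring
            · rw [Finset.sum_comm]
              refine Finset.sum_congr rfl fun c _ => ?_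
              rw [Finset.sum_comm, Finset.mul_sum]
              exact Finset.sum_congr rfl fun c' _ => by rw [Finset.mul_sum]
  -- first term
  have hfirst : 2 ^ (2 * s) * ∑ c : Fin p, mo w F s (cls p R r 1 ((c : ℕ) : ℤ)) ≤
      1 / 2 * (Real.exp L * ((p : ℝ) ^ n) ^ s * M) := by
    have h1 : ∑ c : Fin p, mo w F s (cls p R r 1 ((c : ℕ) : ℤ)) ≤
        p * (Real.exp L * ((p : ℝ) ^ (n - 1)) ^ s * M) := by
      calc _ ≤ ∑ c : Fin p, Real.exp L * ((p : ℝ) ^ (n - 1)) ^ s * M :=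
            Finset.sum_le_sum fun c _ => hup 1 (by omega) _
        _ = _ := by
            rw [Finset.sum_const, Finset.card_univ, Fintype.card_fin, nsmul_eq_mul]
    have h2 : ((p : ℝ) ^ n) ^ s = ((p : ℝ) ^ (n - 1)) ^ s * (p : ℝ) ^ s := by
      rw [← Real.mul_rpow (by positivity) (by positivity), ← pow_succ]
      congr 2
      omega
    have h3 : (p : ℝ) ^ s = (p : ℝ) ^ (s - 1) * p := by
      conv_rhs => rw [← Real.rpow_one (p : ℝ), ← Real.rpow_mul hp0.le, one_mul]
      rw [← Real.rpow_add hp0]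
      congr 1
      ring
    have h4 : (2 : ℝ) ^ (2 * s) * 2 ≤ (p : ℝ) ^ (s - 1) := by
      have h5 : ((2 : ℝ) ^ (5 : ℝ)) ^ (s - 1) ≤ (p : ℝ) ^ (s - 1) := by
        apply Real.rpow_le_rpow (by positivity) _ (by linarith)
        have : ((2 : ℝ) ^ (5 : ℝ)) = 32 := by norm_num
        rw [this]
        exact_mod_cast hp.le
      refine le_trans ?_ h5
      rw [← Real.rpow_mul (by norm_num)]
      have h6 : (2 : ℝ) ^ (2 * s) * 2 = 2 ^ (2 * s + 1) := by
        rw [Real.rpow_add (by norm_num), Real.rpow_one]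
      rw [h6]
      apply Real.rpow_le_rpow_of_exponent_le (by norm_num)
      linarith
    rw [h2, h3]
    have hA : 0 ≤ Real.exp L * ((p : ℝ) ^ (n - 1)) ^ s * M := by positivity
    have h2s : (0 : ℝ) < 2 ^ (2 * s) := by positivity
    calc 2 ^ (2 * s) * ∑ c : Fin p, mo w F s (cls p R r 1 ((c : ℕ) : ℤ))
        ≤ 2 ^ (2 * s) * (p * (Real.exp L * ((p : ℝ) ^ (n - 1)) ^ s * M)) := by gcongr
      _ = 1 / 2 * ((2 ^ (2 * s) * 2) * p * (Real.exp L * ((p : ℝ) ^ (n - 1)) ^ s * M)) := by ring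
      _ ≤ 1 / 2 * ((p : ℝ) ^ (s - 1) * p * (Real.exp L * ((p : ℝ) ^ (n - 1)) ^ s * M)) := by gcongr
      _ = _ := by ring
  -- second term
  set N : ℝ := (p : ℝ) ^ (β - 1) with hN
  have hN0 : 0 < N := by positivity
  have hN1 : 1 ≤ N := one_le_pow₀ hp1r
  set T : ℝ := Real.exp (L - x) * (((p : ℝ) ^ (n - 1)) ^ (1 : ℝ) * ((p : ℝ) ^ (n - β)) ^ (s - 1)) * M with hT
  have hT0 : 0 ≤ T := by positivity
  have hpair : ∀ c c' : Fin p, c' ≠ c →
      ∑ ω, w ω * (G c' ω ^ (2 : ℝ) * G c ω ^ (2 * s - 2)) ≤ N ^ (2 * s - 2) * T := by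
    intro c c' hcc
    have hq : (1 : ℝ) ≤ 2 * s - 2 := by linarith
    have hpm : ∀ ω, G c ω ^ (2 * s - 2) ≤ N ^ (2 * s - 2 - 1) *
        ∑ j ∈ range (p ^ (β - 1)), ‖bs F (cls p R r β (((c : ℕ) : ℤ) + (p : ℤ) * (j : ℤ))) ω‖ ^ (2 * s - 2) := by
      intro ω
      have h1 := Real.rpow_sum_le_const_mul_sum_rpow (range (p ^ (β - 1)))
        (fun j : ℕ => ‖bs F (cls p R r β (((c : ℕ) : ℤ) + (p : ℤ) * (j : ℤ))) ω‖) hq
      simp only [abs_norm, card_range] at h1
      have h2 : G c ω ≤ ∑ j ∈ range (p ^ (β - 1)),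
          ‖bs F (cls p R r β (((c : ℕ) : ℤ) + (p : ℤ) * (j : ℤ))) ω‖ := by
        simp only [hG]
        rw [hsplit2]
        exact norm_sum_le _ _
      refine (Real.rpow_le_rpow (hG0 c ω) h2 (by linarith)).trans ?_
      rw [hN]
      push_cast at h1 ⊢
      exact h1
    calc ∑ ω, w ω * (G c' ω ^ (2 : ℝ) * G c ω ^ (2 * s - 2))
        ≤ ∑ ω, w ω * (G c' ω ^ (2 : ℝ) * (N ^ (2 * s - 2 - 1) *
          ∑ j ∈ range (p ^ (β - 1)), ‖bs F (cls p R r β (((c : ℕ) : ℤ) + (p : ℤ) * (j : ℤ))) ω‖ ^ (2 * s - 2))) := by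
          apply Finset.sum_le_sum
          intro ω _
          apply mul_le_mul_of_nonneg_left _ (hw ω)
          apply mul_le_mul_of_nonneg_left (hpm ω)
          exact Real.rpow_nonneg (hG0 _ _) _
      _ = N ^ (2 * s - 2 - 1) * ∑ j ∈ range (p ^ (β - 1)),
            mm w F (cls p R r 1 ((c' : ℕ) : ℤ)) 1 (cls p R r β (((c : ℕ) : ℤ) + (p : ℤ) * (j : ℤ))) (s - 1) := by
          unfold mm
          rw [Finset.sum_comm, Finset.mul_sum]
          apply Finset.sum_congr rfl
          intro ω _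
          rw [Finset.mul_sum, Finset.mul_sum, Finset.mul_sum, Finset.mul_sum]
          apply Finset.sum_congr rfl
          intro j _
          rw [show 2 * (s - 1) = 2 * s - 2 by ring, mul_one]
          ring
      _ ≤ N ^ (2 * s - 2 - 1) * ∑ j ∈ range (p ^ (β - 1)), T := by
          apply mul_le_mul_of_nonneg_left _ (by positivity)
          apply Finset.sum_le_sum
          intro j _
          apply hBL
          intro hdiv
          have h1 : (p : ℤ) ∣ ((c' : ℕ) : ℤ) - ((c : ℕ) : ℤ) := by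
            have h2 := dvd_add hdiv (dvd_mul_right (p : ℤ) (j : ℤ))
            have h3 : ((c' : ℕ) : ℤ) - (((c : ℕ) : ℤ) + (p : ℤ) * (j : ℤ)) + (p : ℤ) * (j : ℤ) =
              ((c' : ℕ) : ℤ) - ((c : ℕ) : ℤ) := by ring
            rwa [h3] at h2
          have h4 : |((c' : ℕ) : ℤ) - ((c : ℕ) : ℤ)| < p := by
            have := c.isLt
            have := c'.isLt
            rw [abs_lt]
            omega
          have h5 := Int.eq_zero_of_abs_lt_dvd h1 h4
          apply hcc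
          ext
          omega
      _ = N ^ (2 * s - 2) * T := by
          rw [Finset.sum_const, card_range, nsmul_eq_mul]
          have h1 : N ^ (2 * s - 2) = N ^ (2 * s - 2 - 1) * N := by
            conv_rhs => rw [← Real.rpow_one N, ← Real.rpow_mul hN0.le, one_mul]
            rw [← Real.rpow_add hN0]
            congr 1
            ring
          rw [h1, hN]
          push_cast
          ring
  have hsecond : ∑ c : Fin p, ∑ c' ∈ univ.filter (fun c' => c' ≠ c),
        ∑ ω, w ω * (G c' ω ^ (2 : ℝ) * G c ω ^ (2 * s - 2)) ≤ (p : ℝ) ^ 2 * (N ^ (2 * s - 2) * T) := by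
    have hB : 0 ≤ N ^ (2 * s - 2) * T := by positivity
    calc _ ≤ ∑ c : Fin p, ∑ c' ∈ univ.filter (fun c' => c' ≠ c), N ^ (2 * s - 2) * T := by
          apply Finset.sum_le_sum
          intro c _
          apply Finset.sum_le_sum
          intro c' hc'
          exact hpair c c' (by simpa using hc')
      _ ≤ ∑ c : Fin p, p * (N ^ (2 * s - 2) * T) := by
          apply Finset.sum_le_sum
          intro c _
          rw [Finset.sum_const, nsmul_eq_mul]
          apply mul_le_mul_of_nonneg_right _ hB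
          have : (univ.filter (fun c' => c' ≠ c)).card ≤ p := by
            calc _ ≤ (univ : Finset (Fin p)).card := card_filter_le _ _
              _ = p := by rw [card_univ, Fintype.card_fin]
          exact_mod_cast this
      _ = _ := by
          rw [Finset.sum_const, Finset.card_univ, Fintype.card_fin, nsmul_eq_mul]
          ring
  -- conclusion
  have hX : 0 < Real.exp L * ((p : ℝ) ^ n) ^ s * M := by positivity
  have hmain : Real.exp L * ((p : ℝ) ^ n) ^ s * M ≤
      2 * ((p : ℝ) ^ (2 * s + 2) * ((p : ℝ) ^ 2 * (N ^ (2 * s - 2) * T))) := by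
    have h1 : (p : ℝ) ^ (2 * s + 2) * ∑ c : Fin p, ∑ c' ∈ univ.filter (fun c' => c' ≠ c),
        ∑ ω, w ω * (G c' ω ^ (2 : ℝ) * G c ω ^ (2 * s - 2)) ≤
        (p : ℝ) ^ (2 * s + 2) * ((p : ℝ) ^ 2 * (N ^ (2 * s - 2) * T)) := by gcongr
    linarith
  have hTle : T ≤ Real.exp (-x) * (Real.exp L * ((p : ℝ) ^ n) ^ s * M) := by
    have h1 : ((p : ℝ) ^ (n - 1)) ^ (1 : ℝ) ≤ ((p : ℝ) ^ n) ^ (1 : ℝ) := by
      apply Real.rpow_le_rpow (by positivity) _ (by norm_num)
      exact pow_le_pow_right₀ hp1r (by omega)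
    have h2 : ((p : ℝ) ^ (n - β)) ^ (s - 1) ≤ ((p : ℝ) ^ n) ^ (s - 1) := by
      apply Real.rpow_le_rpow (by positivity) _ (by linarith)
      exact pow_le_pow_right₀ hp1r (by omega)
    have h3 : ((p : ℝ) ^ n) ^ (1 : ℝ) * ((p : ℝ) ^ n) ^ (s - 1) = ((p : ℝ) ^ n) ^ s := by
      rw [← Real.rpow_add (by positivity)]
      congr 1
      ring
    have h4 : Real.exp (L - x) = Real.exp (-x) * Real.exp L := by
      rw [← Real.exp_add]
      congr 1
      ring
    rw [hT, h4]
    calc Real.exp (-x) * Real.exp L * (((p : ℝ) ^ (n - 1)) ^ (1 : ℝ) * ((p : ℝ) ^ (n - β)) ^ (s - 1)) * M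
        ≤ Real.exp (-x) * Real.exp L * (((p : ℝ) ^ n) ^ (1 : ℝ) * ((p : ℝ) ^ n) ^ (s - 1)) * M := by gcongr
      _ = _ := by
          rw [h3]
          ring
  have hfin : 1 ≤ 2 * ((p : ℝ) ^ (2 * s + 2) * ((p : ℝ) ^ 2 * N ^ (2 * s - 2))) * Real.exp (-x) := by
    have h1 : Real.exp L * ((p : ℝ) ^ n) ^ s * M ≤
        (2 * ((p : ℝ) ^ (2 * s + 2) * ((p : ℝ) ^ 2 * N ^ (2 * s - 2))) * Real.exp (-x)) *
          (Real.exp L * ((p : ℝ) ^ n) ^ s * M) := by
      calc _ ≤ 2 * ((p : ℝ) ^ (2 * s + 2) * ((p : ℝ) ^ 2 * (N ^ (2 * s - 2) * T))) := hmain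
        _ ≤ 2 * ((p : ℝ) ^ (2 * s + 2) * ((p : ℝ) ^ 2 * (N ^ (2 * s - 2) *
              (Real.exp (-x) * (Real.exp L * ((p : ℝ) ^ n) ^ s * M))))) := by gcongr
        _ = _ := by ring
    exact le_of_mul_le_mul_right (by rw [one_mul]; exact h1) hX
  -- logarithms
  have hlog : x ≤ Real.log (2 * ((p : ℝ) ^ (2 * s + 2) * ((p : ℝ) ^ 2 * N ^ (2 * s - 2)))) := by
    rw [Real.le_log_iff_exp_le (by positivity)]
    rw [Real.exp_neg, ← div_eq_mul_inv, le_div_iff₀ (Real.exp_pos x), one_mul] at hfin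
    exact hfin
  refine hlog.trans ?_
  have hlp : 0 < Real.log p := Real.log_pos (by exact_mod_cast hp1)
  rw [Real.log_mul (by norm_num) (by positivity), Real.log_mul (by positivity) (by positivity),
    Real.log_mul (by positivity) (by positivity), Real.log_rpow hp0, Real.log_pow,
    Real.log_rpow hN0, hN, Real.log_pow]
  have h2p : Real.log 2 ≤ Real.log p := Real.log_le_log (by norm_num) (by exact_mod_cast (by omega : 2 ≤ p))
  have hb : (((β - 1 : ℕ) : ℝ)) = (β : ℝ) - 1 := by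
    rw [Nat.cast_sub hβ, Nat.cast_one]
  rw [hb]
  push_cast
  have hβ1 : (1 : ℝ) ≤ β := by exact_mod_cast hβ
  have : (2 * s - 2) * ((β : ℝ) - 1) ≤ 2 * β * s := by nlinarith
  nlinarith [mul_le_mul_of_nonneg_right this hlp.le]

end Pool.Agent.H92.VM
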